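import Pool.Agent.Helper98.EY.StmtsB

set_option autoImplicit false

namespace Pool.Agent.Helper98.EX

open Finset

variable {N : ℕ}

/-! ### counts -/

theorem brig2_cnt_add (η : Cfg N) {a b c : ℕ} (h1 : a ≤ b) (h2 : b ≤ c) :
    cnt η a b + cnt η b c = cnt η a c := by
  unfold cnt
  exact Finset.sum_Ico_consecutive _ h1 h2

theorem brig2_cnt_zero {η : Cfg N} {a b : ℕ} (h : ∀ x, a ≤ x → x < b → occ η x = false) :
    cnt η a b = 0 := by
  unfold cnt
  apply Finset.sum_eq_zero
  intro i hi
  rw [Finset.mem_Ico] at hi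
  rw [h i hi.1 hi.2]
  simp

theorem brig2_cnt_full {η : Cfg N} {a b : ℕ} (h : ∀ x, a ≤ x → x < b → occ η x = true) :
    cnt η a b = b - a := by
  unfold cnt
  rw [Finset.sum_congr rfl (g := fun _ => 1)]
  · simp
  · intro i hi
    rw [Finset.mem_Ico] at hi
    rw [h i hi.1 hi.2]
    simp

theorem brig2_cnt_le (η : Cfg N) (a b : ℕ) : cnt η a b ≤ b - a := by
  unfold cnt
  calc ∑ i ∈ Finset.Ico a b, (if occ η i = true then 1 else 0) ≤ ∑ _i ∈ Finset.Ico a b, 1 := by
        apply Finset.sum_le_sum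
        intro i _
        split_ifs <;> simp
    _ = b - a := by simp

/-! ### positions -/

theorem brig2_emono {L : BD} (hV : L.Valid) : ∀ u u' : ℕ, u ≤ u' → u' ≤ L.V → L.e u ≤ L.e u' := by
  intro u u' h
  induction u', h using Nat.le_induction with
  | base => intro _; exact le_rfl
  | succ m hm ih =>
    intro h2
    have h3 := ih (by omega)
    have h4 := hV.cell1 (m + 1) (by omega) h2
    have h5 := hV.cell2 (m + 1) (by omega) h2
    rw [Nat.add_sub_cancel] at h4
    omega

theorem brig2_A_le {L : BD} (hV : L.Valid) {u : ℕ} (hu : u ≤ L.V) : L.A ≤ L.e u := by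
  rw [← hV.e0]
  exact brig2_emono hV 0 u (Nat.zero_le _) hu

theorem brig2_Icc {f : ℕ → ℕ} {a b : ℕ} (h : a ≤ b) :
    ∑ u ∈ Finset.Icc a b, f u = f a + ∑ u ∈ Finset.Icc (a + 1) b, f u := by
  have h1 : Finset.Icc a b = insert a (Finset.Icc (a + 1) b) := by
    ext x
    simp only [Finset.mem_Icc, Finset.mem_insert]
    omega
  rw [h1, Finset.sum_insert]
  simp

/-- moving to the next cell does not change `mis` -/
theorem brig2_mis_cell {L : BD} (hV : L.Valid) {v : ℕ} (h1 : 1 ≤ v) (h2 : v ≤ L.V) (q : ℕ) :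
    L.mis (v + 1) (L.e v + q) = L.mis v (L.g v + q) := by
  unfold BD.mis
  rw [brig2_Icc h2]
  have h4 := hV.cell1 v h1 h2
  have h5 := hV.cell2 v h1 h2
  have h6 := brig2_A_le hV (u := v - 1) (by omega)
  omega

theorem brig2_leg_A {L : BD} {v p : ℕ} (hV : L.Valid) (h : L.Leg v p) : L.A ≤ p := by
  obtain ⟨h1, h2, h3, h4⟩ := h
  have := brig2_A_le hV (u := v - 1) (by omega)
  omega

theorem brig2_find {L : BD} (hV : L.Valid) (M : ℕ) (h1 : L.mis 1 L.A ≤ M) (h2 : M + L.A ≤ L.x0) :
    ∃ v p, L.Leg v p ∧ L.mis v p = M := by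
  induction M, h1 using Nat.le_induction with
  | base =>
    refine ⟨1, L.A, ⟨le_rfl, by omega, ?_, ?_⟩, rfl⟩
    · show L.e 0 ≤ L.A
      rw [hV.e0]
    · unfold BD.G
      split_ifs with h
      · have h4 := hV.cell1 1 le_rfl h
        have h5 : L.e (1 - 1) = L.A := hV.e0
        omega
      · have h4 := hV.last
        have h5 := brig2_A_le hV (le_refl L.V)
        omega
  | succ m hm ih =>
    obtain ⟨v, p, hL, hp⟩ := ih (by omega)
    have hA := brig2_leg_A hV hL
    obtain ⟨l1, l2, l3, l4⟩ := hL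
    by_cases hlt : p < L.G v
    · refine ⟨v, p + 1, ⟨l1, l2, by omega, hlt⟩, ?_⟩
      unfold BD.mis at hp ⊢
      omega
    · have hpG : p = L.G v := by omega
      by_cases hv : v ≤ L.V
      · have hG : L.G v = L.g v := by
          unfold BD.G
          rw [if_pos hv]
        refine ⟨v + 1, L.e v + 1, ⟨by omega, by omega, ?_, ?_⟩, ?_⟩
        · rw [Nat.add_sub_cancel]
          omega
        · unfold BD.G
          split_ifs with h
          · have h4 := hV.cell1 (v + 1) (by omega) h
            rw [Nat.add_sub_cancel] at h4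
            have := hV.w1
            omega
          · have h4 := hV.last
            have h5 := hV.w1
            have h6 : v = L.V := by omega
            rw [h6]
            omega
        · rw [brig2_mis_cell hV l1 hv]
          rw [hpG, hG] at hp
          have h4 := hV.cell1 v l1 hv
          have h6 := brig2_A_le hV (u := v - 1) (by omega)
          unfold BD.mis at hp ⊢
          omega
      · exfalso
        have hG : L.G v = L.x0 := by
          unfold BD.G
          rw [if_neg hv]
        have h3 : L.mis v p = p - L.A := by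
          unfold BD.mis
          rw [Finset.Icc_eq_empty (by omega), Finset.sum_empty, add_zero]
        omega

theorem brig2_rem {L : BD} (hV : L.Valid) {v p : ℕ} (h : L.Leg v p) :
    L.mis v p = L.rem v p + L.mis 1 L.A := by
  obtain ⟨l1, l2, l3, l4⟩ := h
  have key : ∀ v, 1 ≤ v → v ≤ L.V + 1 →
      (L.e (v - 1) - L.A) + ∑ u ∈ Finset.Icc v L.V, (L.e u - L.g u) =
      ∑ u ∈ Finset.Ico 1 v, (L.g u - L.e (u - 1)) + L.mis 1 L.A := by
    intro v hv
    induction v, hv using Nat.le_induction with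
    | base =>
      intro _
      unfold BD.mis
      have h0 : L.e (1 - 1) = L.A := hV.e0
      rw [h0]
      simp
    | succ m hm ih =>
      intro h2
      have ih' := ih (by omega)
      rw [brig2_Icc (show m ≤ L.V by omega)] at ih'
      rw [Finset.sum_Ico_succ_top hm, Nat.add_sub_cancel]
      have h4 := hV.cell1 m hm (by omega)
      have h5 := hV.cell2 m hm (by omega)
      have h6 := brig2_A_le hV (u := m - 1) (by omega)
      omega
  have h1 := key v l1 l2
  have h6 := brig2_A_le hV (u := v - 1) (by omega)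
  unfold BD.rem
  have h7 : L.mis v p = (p - L.A) + ∑ u ∈ Finset.Icc v L.V, (L.e u - L.g u) := rfl
  rw [h7]
  omega

theorem brig2_p_ge {L : BD} {v p n : ℕ} (h1 : 1 ≤ v)
    (h : n + L.mis 1 L.A ≤ L.mis v p) : L.A + n ≤ p ∨ n = 0 := by
  have h2 : ∑ u ∈ Finset.Icc v L.V, (L.e u - L.g u) ≤ ∑ u ∈ Finset.Icc 1 L.V, (L.e u - L.g u) := by
    apply Finset.sum_le_sum_of_subset
    exact Finset.Icc_subset_Icc_left h1
  unfold BD.mis at h
  omega

/-! ### counts in a pattern -/

theorem brig2_sum {L : BD} (hV : L.Valid) (η : Cfg N) (v : ℕ) (V' : ℕ) (h1 : v ≤ V') :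
    V' ≤ L.V → (∀ u, v < u → u ≤ V' → cnt η (L.e (u - 1)) (L.e u) = L.e u - L.g u) →
    cnt η (L.e v) (L.e V') = ∑ u ∈ Finset.Icc (v + 1) V', (L.e u - L.g u) := by
  induction V', h1 using Nat.le_induction with
  | base =>
    intro _ _
    rw [Finset.Icc_eq_empty (by omega), Finset.sum_empty]
    apply brig2_cnt_zero
    intro x hx1 hx2
    omega
  | succ m hm ih =>
    intro h2 h3
    have ih' := ih (by omega) (fun u hu1 hu2 => h3 u hu1 (by omega))
    have h4 := h3 (m + 1) (by omega) le_rfl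
    rw [Nat.add_sub_cancel] at h4
    rw [← brig2_cnt_add η (brig2_emono hV v m hm (by omega)) (brig2_emono hV m (m + 1) (by omega) h2), ih', h4,
      Finset.sum_Icc_succ_top (by omega)]

theorem brig2_cnt_pat {L : BD} (hV : L.Valid) {v p : ℕ} (hL : L.Leg v p) {η : Cfg N}
    (h : η ∈ (L.Pat v p : Set (Cfg N))) :
    cnt η L.A L.x0 = L.mis v p + cnt η (max p (L.e L.V)) L.x0 := by
  have hA := brig2_leg_A hV hL
  obtain ⟨l1, l2, l3, l4⟩ := hL
  obtain ⟨a1, a2, a3, a4, a5⟩ := h
  have hlast := hV.last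
  have c1 : cnt η L.A p = p - L.A := brig2_cnt_full a1
  by_cases hv : v ≤ L.V
  · have hG : L.G v = L.g v := by
      unfold BD.G
      rw [if_pos hv]
    have h4 := hV.cell1 v l1 hv
    have h5 := hV.cell2 v l1 hv
    have h6 := brig2_emono hV v L.V hv le_rfl
    have hmax : max p (L.e L.V) = L.e L.V := max_eq_right (by omega)
    rw [hmax, ← brig2_cnt_add η hA (show p ≤ L.x0 by omega), c1,
      ← brig2_cnt_add η (show p ≤ L.e v by omega) (show L.e v ≤ L.x0 by omega), (a3 hv).2,
      ← brig2_cnt_add η h6 (show L.e L.V ≤ L.x0 by omega),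
      brig2_sum hV η v L.V hv le_rfl (fun u hu1 hu2 => (a4 u hu1 hu2).2.2)]
    unfold BD.mis
    rw [brig2_Icc hv]
    omega
  · have hG : L.G v = L.x0 := by
      unfold BD.G
      rw [if_neg hv]
    have hvV : v - 1 = L.V := by omega
    rw [hvV] at l3
    have hmax : max p (L.e L.V) = p := max_eq_left l3
    rw [hmax, ← brig2_cnt_add η hA (show p ≤ L.x0 by omega), c1]
    unfold BD.mis
    rw [Finset.Icc_eq_empty (by omega), Finset.sum_empty, add_zero]

theorem brig2_cnt_pat_le {L : BD} (hV : L.Valid) {v p : ℕ} (hL : L.Leg v p) {η : Cfg N}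
    (h : η ∈ (L.Pat v p : Set (Cfg N))) : cnt η L.A L.x0 ≤ L.mis v p + L.w := by
  have h1 := brig2_cnt_pat hV hL h
  have hlast := hV.last
  obtain ⟨l1, l2, l3, l4⟩ := hL
  obtain ⟨a1, a2, a3, a4, a5⟩ := h
  have h2 : cnt η (max p (L.e L.V)) L.x0 ≤ L.w := by
    by_cases hc : max p (L.e L.V) ≤ L.x0 - L.w
    · rw [← brig2_cnt_add η hc (show L.x0 - L.w ≤ L.x0 by omega)]
      have h3 : cnt η (max p (L.e L.V)) (L.x0 - L.w) = 0 := by
        apply brig2_cnt_zero
        intro x hx1 hx2
        have hx3 : p ≤ x := le_trans (le_max_left _ _) hx1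
        have hx4 : L.e L.V ≤ x := le_trans (le_max_right _ _) hx1
        by_cases hv : v ≤ L.V
        · exact a5 hv x hx4 (by omega)
        · have hG : L.G v = L.x0 := by
            unfold BD.G
            rw [if_neg hv]
          exact a2 x hx3 (by omega)
      have h4 := brig2_cnt_le η (L.x0 - L.w) L.x0
      omega
    · have h4 := brig2_cnt_le η (max p (L.e L.V)) L.x0
      omega
  omega

/-! ### the canonical configuration -/

/-- occupied sites of the canonical pattern -/
def brig2_P (L : BD) (v p x : ℕ) : Prop := x < p ∨ ∃ u, v ≤ u ∧ u ≤ L.V ∧ L.g u ≤ x ∧ x < L.e u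

theorem brig2_canon {L : BD} (hV : L.Valid) {v p : ℕ} (hL : L.Leg v p) (hA : L.A = 0) {η : Cfg N}
    (h : ∀ x, x < L.x0 → (occ η x = true ↔ brig2_P L v p x)) :
    η ∈ (L.Pat v p : Set (Cfg N)) ∧ cnt η 0 L.x0 = L.mis v p := by
  have hlast := hV.last
  obtain ⟨l1, l2, l3, l4⟩ := hL
  -- geometry
  have ge1 : ∀ u, v ≤ u → u ≤ L.V → L.e u ≤ L.e L.V := fun u _ h2 => brig2_emono hV u L.V h2 le_rfl
  have ge2 : ∀ u u', 1 ≤ u' → u < u' → u' ≤ L.V → L.e u + 4 * L.w ≤ L.g u' := by
    intro u u' h0 h1 h2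
    have h3 := hV.cell1 u' h0 h2
    have h4 := brig2_emono hV u (u' - 1) (by omega) (by omega)
    omega
  have hpx : p ≤ L.x0 := by
    unfold BD.G at l4
    split_ifs at l4 with hv
    · have := hV.cell2 v l1 hv
      have := ge1 v le_rfl hv
      omega
    · exact l4
  have hf : ∀ x, x < L.x0 → ¬ brig2_P L v p x → occ η x = false := by
    intro x hx hn
    by_contra hc
    exact hn ((h x hx).1 (by simpa using hc))
  have f1 : ∀ x, L.A ≤ x → x < p → occ η x = true := by
    intro x _ hx
    exact (h x (by omega)).2 (Or.inl hx)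
  -- between p and the landing spot
  have f2 : ∀ x, p ≤ x → x < L.G v → occ η x = false := by
    intro x hx1 hx2
    have hxx : x < L.x0 := by
      unfold BD.G at hx2
      split_ifs at hx2 with hv
      · have := hV.cell2 v l1 hv
        have := ge1 v le_rfl hv
        omega
      · exact hx2
    apply hf x hxx
    rintro (hc | ⟨u, hu1, hu2, hu3, hu4⟩)
    · omega
    · unfold BD.G at hx2
      rw [if_pos (show v ≤ L.V by omega)] at hx2
      rcases Nat.eq_or_lt_of_le hu1 with he | he
      · subst he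
        omega
      · have h7 := ge2 v u (by omega) he hu2
        have h8 := hV.cell2 v l1 (by omega)
        omega
  have f3 : ∀ u, v ≤ u → u ≤ L.V → ∀ x, L.g u ≤ x → x < L.e u → occ η x = true := by
    intro u hu1 hu2 x hx1 hx2
    have := ge1 u hu1 hu2
    exact (h x (by omega)).2 (Or.inr ⟨u, hu1, hu2, hx1, hx2⟩)
  have f4 : ∀ u, v < u → u ≤ L.V → ∀ x, L.e (u - 1) ≤ x → x < L.g u → occ η x = false := by
    intro u hu1 hu2 x hx1 hx2
    have h7 := ge1 u hu1.le hu2
    have h8 := hV.cell2 u (by omega) hu2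
    have hvV : v ≤ L.V := by omega
    have h9 : p ≤ L.e (u - 1) := by
      unfold BD.G at l4
      rw [if_pos hvV] at l4
      have h10 := hV.cell2 v l1 hvV
      have h11 := brig2_emono hV v (u - 1) (by omega) (by omega)
      omega
    apply hf x (by omega)
    rintro (hc | ⟨u', hu1', hu2', hu3', hu4'⟩)
    · omega
    · rcases lt_trichotomy u' u with hc | hc | hc
      · have h10 := brig2_emono hV u' (u - 1) (by omega) (by omega)
        omega
      · subst hc
        omega
      · have h10 := ge2 u u' (by omega) hc hu2'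
        omega
  have f5 : ∀ x, p ≤ x → L.e L.V ≤ x → x < L.x0 → occ η x = false := by
    intro x hx0 hx1 hx2
    apply hf x hx2
    rintro (hc | ⟨u', hu1', hu2', hu3', hu4'⟩)
    · omega
    · have h10 := ge1 u' hu1' hu2'
      omega
  have hpat : η ∈ (L.Pat v p : Set (Cfg N)) := by
    refine ⟨f1, ?_, ?_, ?_, ?_⟩
    · intro x hx1 hx2
      exact f2 x hx1 (by omega)
    · intro hv
      have h8 := hV.cell2 v l1 hv
      have hG : L.G v = L.g v := by
        unfold BD.G
        rw [if_pos hv]
      refine ⟨fun x hx1 hx2 => f3 v le_rfl hv x (by omega) hx2, ?_⟩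
      rw [← brig2_cnt_add η (show p ≤ L.g v by omega) (show L.g v ≤ L.e v by omega),
        brig2_cnt_zero (fun x hx1 hx2 => f2 x hx1 (by omega)), brig2_cnt_full (f3 v le_rfl hv), zero_add]
    · intro u hu1 hu2
      have h8 := hV.cell2 u (by omega) hu2
      have h9 := hV.cell1 u (by omega) hu2
      refine ⟨fun x hx1 hx2 => f4 u hu1 hu2 x hx1 (by omega),
        fun x hx1 hx2 => f3 u hu1.le hu2 x (by omega) hx2, ?_⟩
      rw [← brig2_cnt_add η (show L.e (u - 1) ≤ L.g u by omega) (show L.g u ≤ L.e u by omega),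
        brig2_cnt_zero (f4 u hu1 hu2), brig2_cnt_full (f3 u hu1.le hu2), zero_add]
    · intro hv x hx1 hx2
      have h8 := hV.cell2 v l1 hv
      have hG : L.G v = L.g v := by
        unfold BD.G
        rw [if_pos hv]
      have h9 := ge1 v le_rfl hv
      exact f5 x (by omega) hx1 (by omega)
  refine ⟨hpat, ?_⟩
  have h1 := brig2_cnt_pat hV ⟨l1, l2, l3, l4⟩ hpat
  have h2 : cnt η (max p (L.e L.V)) L.x0 = 0 := by
    apply brig2_cnt_zero
    intro x hx1 hx2
    exact f5 x (le_trans (le_max_left _ _) hx1) (le_trans (le_max_right _ _) hx1) hx2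
  rw [h2, add_zero, hA] at h1
  exact h1

end Pool.Agent.Helper98.EX
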