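import Pool.Agent.Helper80.EY.BRIG2a

set_option autoImplicit false

namespace Pool.Agent.Helper98.EX

open Finset

variable {N : ℕ}

/-! ### the starting configuration -/

/-- canonical configuration with patterns in both halves -/
noncomputable def brig2_Z (N x0 : ℕ) (L L' : BD) (v p v' p' : ℕ) : Cfg N := by
  classical exact fun i => if i.val < x0 then decide (brig2_P L v p i.val)
    else !(decide (brig2_P L' v' p' (N - 1 - i.val)))

theorem brig2_Z_left {x0 : ℕ} (hx : x0 ≤ N) (L L' : BD) (v p v' p' : ℕ) {x : ℕ} (h : x < x0) :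
    occ (brig2_Z N x0 L L' v p v' p') x = true ↔ brig2_P L v p x := by
  classical
  rw [occ_lt (show x < N by omega)]
  unfold brig2_Z
  simp [h]

theorem brig2_Z_right {x0 : ℕ} (L L' : BD) (v p v' p' : ℕ) {x : ℕ} (h : x0 ≤ x) (hN : x < N) :
    occ (brig2_Z N x0 L L' v p v' p') x = false ↔ brig2_P L' v' p' (N - 1 - x) := by
  classical
  rw [occ_lt hN]
  unfold brig2_Z
  simp [not_lt.mpr h]

theorem brig2_start (hM : ST_MIR) {N k x0 M n : ℕ} {L L' : BD} {v p v' p' : ℕ} (hV : L.Valid)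
    (hV' : L'.Valid) (hA : L.A = 0) (hA' : L'.A = 0) (hx : L.x0 = x0) (hx' : L'.x0 = k)
    (hk : x0 + k = N) (hL : L.Leg v p) (hL' : L'.Leg v' p') (hm : L.mis v p = M)
    (hm' : L'.mis v' p' = M) (hp : n ≤ p) (hp' : n ≤ p') :
    ∃ ζ : Cfg N, ζ ∈ (L.Pat v p : Set (Cfg N)) ∧ mir ζ ∈ (L'.Pat v' p' : Set (Cfg N)) ∧
      ht ζ 0 = k ∧ ∀ η : Cfg N, ht η 0 = k → cnt η 0 x0 ≤ n → hle 0 ζ η := by
  obtain ⟨m1, m2, m3, m4⟩ := hM N
  set ζ := brig2_Z N x0 L L' v p v' p' with hζ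
  have z1 : ∀ x, x < L.x0 → (occ ζ x = true ↔ brig2_P L v p x) := by
    intro x hxx
    exact brig2_Z_left (by omega) L L' v p v' p' (by omega)
  have z2 : ∀ x, x < L'.x0 → (occ (mir ζ) x = true ↔ brig2_P L' v' p' x) := by
    intro x hxx
    rw [m2 ζ x (by omega), Bool.not_eq_true', brig2_Z_right L L' v p v' p' (by omega) (by omega)]
    have h1 : N - 1 - (N - 1 - x) = x := by omega
    rw [h1]
  obtain ⟨c1, c2⟩ := brig2_canon hV hL hA z1
  obtain ⟨c3, c4⟩ := brig2_canon hV' hL' hA' z2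
  rw [hx, hm] at c2
  rw [hx', hm'] at c4
  -- number of particles
  have t1 := m3 ζ 0 (by omega)
  have t2 := m3 ζ k (by omega)
  have t3 := ht_cnt (mir ζ) (Nat.zero_le k) (show k ≤ N by omega)
  have t4 := ht_cnt ζ (Nat.zero_le x0) (show x0 ≤ N by omega)
  have t5 : N - k = x0 := by omega
  rw [t5] at t2
  rw [Nat.sub_zero, ht_ge (le_refl N)] at t1
  have hk0 : ht ζ 0 = k := by omega
  refine ⟨ζ, c1, c3, hk0, ?_⟩
  intro η hη hn x
  rw [Nat.add_zero]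
  have hA'p := brig2_leg_A hV' hL'
  have hpx0 : p ≤ x0 := by
    obtain ⟨l1, l2, l3, l4⟩ := hL
    unfold BD.G at l4
    split_ifs at l4 with hv
    · have := hV.cell2 v l1 hv
      have := brig2_emono hV v L.V hv le_rfl
      have := hV.last
      omega
    · omega
  have hpx0' : p' ≤ k := by
    obtain ⟨l1, l2, l3, l4⟩ := hL'
    unfold BD.G at l4
    split_ifs at l4 with hv
    · have := hV'.cell2 v' l1 hv
      have := brig2_emono hV' v' L'.V hv le_rfl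
      have := hV'.last
      omega
    · omega
  rcases le_or_gt x x0 with hxx | hxx
  · -- left half
    have e1 := ht_cnt ζ (Nat.zero_le x) (show x ≤ N by omega)
    have e2 := ht_cnt η (Nat.zero_le x) (show x ≤ N by omega)
    have e3 := brig2_cnt_add η (Nat.zero_le x) hxx
    have e4 := brig2_cnt_le η 0 x
    have e5 : min x p ≤ cnt ζ 0 x := by
      rcases le_total x p with h | h
      · rw [min_eq_left h, brig2_cnt_full]
        · omega
        · intro y _ hy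
          exact (z1 y (by omega)).2 (Or.inl (by omega))
      · rw [min_eq_right h, ← brig2_cnt_add ζ (Nat.zero_le p) h,
          brig2_cnt_full (a := 0) (b := p) (fun y _ hy => (z1 y (by omega)).2 (Or.inl hy))]
        omega
    omega
  · -- right half
    have e1 : ht ζ (N - p') = 0 := by
      unfold ht
      apply Finset.sum_eq_zero
      intro i hi
      rw [Finset.mem_Ico] at hi
      have : occ ζ i = false := by
        rw [brig2_Z_right L L' v p v' p' (by omega) hi.2]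
        exact Or.inl (by omega)
      rw [this]
      simp
    have e2 : ht ζ x ≤ N - p' - x := by
      rcases le_total x (N - p') with h | h
      · have := ht_le_sub ζ h
        omega
      · have := ht_anti ζ h
        omega
    -- holes of η
    have e3 := ht_cnt η (Nat.zero_le x0) (show x0 ≤ N by omega)
    rcases le_or_gt x N with hN | hN
    · have e4 := ht_cnt η hxx.le hN
      have e5 := brig2_cnt_le η x0 x
      omega
    · omega

/-- the event of few misplaced particles is increasing -/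
theorem brig2_compare {r l : ℕ → ℝ} (hadm : Adm N r l) {k x0 : ℕ} (hx : x0 ≤ N) (thr : ℝ)
    (σ : ℕ → Finset ℕ) (m : ℕ) {ζ η : Cfg N} (hζ : ht ζ 0 = k) (hη : ht η 0 = k) (h : hle 0 ζ η) :
    pr r l σ m {ξ | thr < cnt ξ 0 x0} η ≤ pr r l σ m {ξ | thr < cnt ξ 0 x0} ζ := by
  have hE : Inc k (ind ({ξ | thr < cnt ξ 0 x0}ᶜ : Set (Cfg N))) := by
    apply pr_Inc_ind
    intro a b ha hb hab hm
    simp only [Set.mem_compl_iff, Set.mem_ofPred_eq, not_lt] at hm ⊢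
    have e1 := ht_cnt a (Nat.zero_le x0) hx
    have e2 := ht_cnt b (Nat.zero_le x0) hx
    have e3 := hab x0
    have e4 : cnt b 0 x0 ≤ cnt a 0 x0 := by omega
    have e5 : (cnt b 0 x0 : ℝ) ≤ cnt a 0 x0 := by exact_mod_cast e4
    linarith
  have h1 := ev_inc hadm hE σ m ζ η hζ hη h
  have h2 := pr_compl (r := r) (l := l) σ m ({ξ | thr < cnt ξ 0 x0} : Set (Cfg N)) η
  have h3 := pr_compl (r := r) (l := l) σ m ({ξ | thr < cnt ξ 0 x0} : Set (Cfg N)) ζ
  unfold pr at h2 h3 ⊢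
  linarith

/-! ### data of one half -/

theorem brig2_half (hBRD : ST_BRD) : ∀ C1 c : ℝ, 0 ≤ C1 → 0 < c → ∃ N0 : ℕ,
    ∀ (N τ w x0 q : ℕ) (r l : ℕ → ℝ) (θ : ℝ), N0 ≤ N → GE N r l w C1 →
    (N : ℝ) ^ (21 / 40 : ℝ) ≤ θ → θ ≤ N → NoHP N r l 0 N θ → c * N ≤ x0 → x0 < N →
    Near N r l 0 (2 * Real.log N ^ 8) ((N : ℝ) ^ (1 / 4 : ℝ)) →
    Near N r l q (2 * Real.log N ^ 8) ((N : ℝ) ^ (1 / 4 : ℝ)) → q ≤ x0 → x0 ≤ q + 1 →
    8 * N * Real.log N ^ 12 * θ ≤ τ →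
    ∃ L : BD, L.Valid ∧ L.A = 0 ∧ L.x0 = x0 ∧ L.w = w ∧ (L.V : ℝ) ≤ Real.log N * N / θ ∧
      (L.mis 1 0 : ℝ) ≤ Real.log N ^ 9 * N / θ ∧
      L.Hyp N r l τ ((N : ℝ) ^ (-9 : ℝ)) ((N : ℝ) ^ (-9 : ℝ)) := by
  intro C1 c hC1 hc
  obtain ⟨N1, hN1⟩ := hBRD C1 hC1
  -- growth facts
  have hlog : Filter.Tendsto (fun N : ℕ => Real.log N) Filter.atTop Filter.atTop :=
    Real.tendsto_log_atTop.comp tendsto_natCast_atTop_atTop
  have g1 : ∀ᶠ N : ℕ in Filter.atTop, 2 ≤ Real.log N := hlog.eventually_ge_atTop 2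
  have gl : ∀ (j : ℕ) (a b : ℝ), 0 < a → 0 < b → ∀ᶠ N : ℕ in Filter.atTop,
      Real.log N ^ j < b * (N : ℝ) ^ a := by
    intro j a b ha hb
    have h1 := (isLittleO_log_rpow_rpow_atTop (s := a) (j : ℝ) ha).comp_tendsto
      (tendsto_natCast_atTop_atTop (R := ℝ))
    have h2 := h1.bound (show (0 : ℝ) < b / 2 by positivity)
    filter_upwards [h2, g1, Filter.eventually_ge_atTop 1] with N h3 h4 h5
    have h6 : (1 : ℝ) ≤ N := by exact_mod_cast h5
    have h7 : 0 < (N : ℝ) ^ a := by positivity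
    simp only [Function.comp_apply, Real.norm_eq_abs, Real.rpow_natCast] at h3
    rw [abs_of_nonneg (by positivity), abs_of_pos h7] at h3
    have : b / 2 * (N : ℝ) ^ a < b * (N : ℝ) ^ a := by
      apply mul_lt_mul_of_pos_right _ h7
      linarith
    linarith
  have f := ((Filter.eventually_ge_atTop N1).and (g1.and ((gl 40 (21 / 40) 1 (by norm_num) one_pos).and
    ((gl 25 (1 / 20) 1 (by norm_num) one_pos).and (gl 8 1 c one_pos hc)))))
  obtain ⟨N0, hN0⟩ := Filter.eventually_atTop.1 (f.and (Filter.eventually_ge_atTop 2))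
  refine ⟨N0, fun N τ w x0 q r l θ hN hGE hθ1 hθ2 hno hx1 hx2 hn0 hnq hq1 hq2 hτ => ?_⟩
  obtain ⟨⟨f1, f2, f3, f4, f5⟩, f6⟩ := hN0 N hN
  have hN' : (2 : ℝ) ≤ N := by exact_mod_cast f6
  have hNpos : (0 : ℝ) < N := by linarith
  rw [one_mul] at f3 f4
  rw [Real.rpow_one] at f5
  have hLpos : 0 < Real.log N := by linarith
  have hL1 : 1 ≤ Real.log N := by linarith
  have h14 : (N : ℝ) ^ (1 / 4 : ℝ) ≤ θ := le_trans
    (Real.rpow_le_rpow_of_exponent_le (by linarith) (by norm_num)) hθ1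
  have hθpos : 0 < θ := lt_of_lt_of_le (by positivity) hθ1
  have h1θ : 1 ≤ θ := le_trans (Real.one_le_rpow (by linarith) (by norm_num)) hθ1
  have hLx : Real.log N ^ 8 ≤ x0 := by linarith
  obtain ⟨L, b1, b2, b3, b4, b5, b6, b7, b8⟩ := hN1 N τ w 0 x0 0 0 r l θ θ f1 hGE
    (le_trans f3.le hθ1) hθ2
    (by
      have e1 : (N : ℝ) * Real.log N ^ 25 < N * (N : ℝ) ^ (1 / 20 : ℝ) := mul_lt_mul_of_pos_left f4 hNpos
      have e2 : (N : ℝ) * (N : ℝ) ^ (1 / 20 : ℝ) = ((N : ℝ) ^ (21 / 40 : ℝ)) ^ 2 := by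
        rw [← Real.rpow_natCast ((N : ℝ) ^ (21 / 40 : ℝ)) 2, ← Real.rpow_mul hNpos.le]
        nth_rewrite 1 [← Real.rpow_one (N : ℝ)]
        rw [← Real.rpow_add hNpos]
        norm_num
      have e3 : ((N : ℝ) ^ (21 / 40 : ℝ)) ^ 2 ≤ θ ^ 2 := pow_le_pow_left₀ (by positivity) hθ1 2
      linarith)
    hθpos.le le_rfl
    (by
      have e1 : Real.log N ^ 7 ≤ Real.log N ^ 9 := pow_le_pow_right₀ hL1 (by norm_num)
      push_cast
      rw [zero_add, zero_add]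
      exact mul_le_mul_of_nonneg_right e1 hθpos.le)
    (by
      push_cast
      rw [zero_add, zero_add, zero_add]
      exact hLx)
    hx2
    (by
      intro a z y b h1 h2 h3 h4 h5 h6
      exact hno a z y b h1 h2 h3 h4 (by omega) h6)
    (by
      intro z y _ hzy hy
      push_cast at hy
      rw [zero_add, zero_add, zero_add] at hy
      have hyx : (y : ℝ) < x0 := by linarith
      have hyx' : y < x0 := by exact_mod_cast hyx
      constructor
      · refine le_trans (hn0.1 z y hzy (by omega) ?_ ?_) h14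
        · push_cast
          positivity
        · push_cast
          have : 0 ≤ Real.log N ^ 8 := by positivity
          linarith
      · intro hz
        refine le_trans (hn0.2 z y hz hzy (by omega) ?_ ?_) h14
        · push_cast
          positivity
        · push_cast
          have : 0 ≤ Real.log N ^ 8 := by positivity
          linarith)
    (by
      intro z y _ hzy hyx hxy
      by_cases hw : z + w ≤ y
      · have e1 := hGE.far z y hw (by omega)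
        have e2 := hGE.rlow (y + 1) (by omega) (by omega)
        have e3 : vp r l z y ≤ (N : ℝ) ^ (-11 : ℝ) / (N : ℝ) ^ (-2 : ℝ) := by
          unfold vp
          have e4 : 0 < (N : ℝ) ^ (-2 : ℝ) := by positivity
          exact div_le_div₀ (by positivity) e1 e4 e2
        rw [← Real.rpow_sub hNpos] at e3
        have e5 : (N : ℝ) ^ ((-11 : ℝ) - (-2 : ℝ)) ≤ 1 :=
          Real.rpow_le_one_of_one_le_of_nonpos (by linarith) (by norm_num)
        linarith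
      · have hwl := hGE.wlog
        have e1 : Real.log N ^ 2 ≤ Real.log N ^ 8 := pow_le_pow_right₀ hL1 (by norm_num)
        have e2 : (y : ℝ) < z + w := by exact_mod_cast not_le.1 hw
        have e3 : (q : ℝ) ≤ x0 := by exact_mod_cast hq1
        have e4 : (y : ℝ) + 1 ≤ x0 := by exact_mod_cast hyx
        have e5 : (x0 : ℝ) ≤ q + 1 := by exact_mod_cast hq2
        refine le_trans (hnq.1 z y hzy (by omega) ?_ ?_) h14
        · linarith
        · have : 0 ≤ Real.log N ^ 8 := by positivity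
          linarith)
    hτ
  obtain ⟨c1, c2, c3⟩ := b8 0 le_rfl
  refine ⟨L.adj 0, c1, b1, b2, b3, b6, b7, c2⟩

/-! ### the central window -/

theorem brig2_cen (hQG : ST_QG) : ∀ C1 : ℝ, ∃ N0 : ℕ,
    ∀ (N τ w x0 : ℕ) (r l : ℕ → ℝ) (θ : ℝ), N0 ≤ N → GE N r l w C1 → Cen N r l x0 w →
    (N : ℝ) ^ (21 / 40 : ℝ) ≤ θ → 8 * N * Real.log N ^ 12 * θ ≤ τ → 4 * w ≤ x0 →
    ∀ (a b : ℕ) (S : Finset ℕ) (η : Cfg N), x0 ≤ a + 4 * w → a < x0 → x0 < b → b ≤ x0 + 4 * w →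
    b ≤ N → a ∉ S → b ∉ S → (∀ x, a < x → x < b → x ∈ S) → cnt η a b = b - x0 →
    pr r l (fun _ => S) τ (sorted a (x0 - w) (x0 + w) b)ᶜ η ≤ (N : ℝ) ^ (-9 : ℝ) := by
  intro C1
  have hlog : Filter.Tendsto (fun N : ℕ => Real.log N) Filter.atTop Filter.atTop :=
    Real.tendsto_log_atTop.comp tendsto_natCast_atTop_atTop
  have g1 : ∀ᶠ N : ℕ in Filter.atTop, 2 ≤ Real.log N := hlog.eventually_ge_atTop 2
  have gl : ∀ (j : ℕ) (a b : ℝ), 0 < a → 0 < b → ∀ᶠ N : ℕ in Filter.atTop,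
      Real.log N ^ j < b * (N : ℝ) ^ a := by
    intro j a b ha hb
    have h1 := (isLittleO_log_rpow_rpow_atTop (s := a) (j : ℝ) ha).comp_tendsto
      (tendsto_natCast_atTop_atTop (R := ℝ))
    have h2 := h1.bound (show (0 : ℝ) < b / 2 by positivity)
    filter_upwards [h2, g1, Filter.eventually_ge_atTop 1] with N h3 h4 h5
    have h6 : (1 : ℝ) ≤ N := by exact_mod_cast h5
    have h7 : 0 < (N : ℝ) ^ a := by positivity
    simp only [Function.comp_apply, Real.norm_eq_abs, Real.rpow_natCast] at h3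
    rw [abs_of_nonneg (by positivity), abs_of_pos h7] at h3
    have : b / 2 * (N : ℝ) ^ a < b * (N : ℝ) ^ a := by
      apply mul_lt_mul_of_pos_right _ h7
      linarith
    linarith
  have f := (g1.and ((gl 3 (3 / 8) (1 / (16384 * 6500)) (by norm_num) (by norm_num)).and
    (gl 4 1 1 one_pos one_pos)))
  obtain ⟨N0, hN0⟩ := Filter.eventually_atTop.1 (f.and (Filter.eventually_ge_atTop 33))
  refine ⟨N0, fun N τ w x0 r l θ hN hGE hCen hθ1 hτ hwx a b S η h1 h2 h3 h4 h5 h6 h7 h8 h9 => ?_⟩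
  obtain ⟨⟨f1, f2, f3⟩, f4⟩ := hN0 N hN
  have hN' : (33 : ℝ) ≤ N := by exact_mod_cast f4
  have hNpos : (0 : ℝ) < N := by linarith
  rw [one_mul, Real.rpow_one] at f3
  set Lg := Real.log N with hLg
  have hL0 : 0 < Lg := by linarith
  have hw1 : (1 : ℝ) ≤ w := by exact_mod_cast hGE.w1
  have hwl := hGE.wlog
  have hq := hQG N r l S a (x0 - w) x0 (x0 + w) b τ ((N : ℝ) ^ (1 / 20 : ℝ)) ((N : ℝ) ^ (-(1 / 20) : ℝ))
    ((N : ℝ) ^ (-100 : ℝ)) η hGE.adm
    (fun x hx1 hx2 => lt_of_lt_of_le (by positivity) (hGE.low x hx1 hx2)) (by omega) (by omega) (by omega) (by omega)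
    (by omega) h5 h6 h7 h8 (by positivity) (by positivity)
    (Real.rpow_le_one_of_one_le_of_nonpos (by linarith) (by norm_num))
    (fun x hx1 hx2 => ⟨hCen.rlow x (by omega) (by omega), hGE.low x (by omega) (by omega)⟩)
    (Real.one_le_rpow (by linarith) (by norm_num))
    (fun z x hz1 hz2 hz3 => hCen.near z x (by omega) hz2 (by omega)) h9
  refine hq.trans ?_
  -- the exponent
  have hba : (b : ℝ) - a ≤ 8 * w := by
    have e1 : (b : ℝ) ≤ x0 + 4 * w := by exact_mod_cast h4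
    have e2 : (x0 : ℝ) ≤ a + 4 * w := by exact_mod_cast h1
    linarith
  have hba0 : (1 : ℝ) ≤ (b : ℝ) - a := by
    have : (a : ℝ) + 1 ≤ b := by exact_mod_cast (show a + 1 ≤ b by omega)
    linarith
  set W := (b : ℝ) - a with hW
  have hWL : W ≤ 8 * Lg ^ 2 := by linarith
  have e1 : Real.log (1 / (N : ℝ) ^ (-100 : ℝ)) = 100 * Lg := by
    rw [one_div, Real.log_inv, Real.log_rpow hNpos]
    ring
  have e2 : Real.log (2 * (N : ℝ) ^ (1 / 20 : ℝ)) ≤ Lg := by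
    rw [Real.log_mul (by norm_num) (by positivity), Real.log_rpow hNpos]
    have : Real.log 2 ≤ 1 := by
      have := Real.log_two_lt_d9
      linarith
    linarith
  have e3 : W ^ 2 * (100 * Lg) + W * Lg ≤ 6500 * Lg ^ 5 - 10 * Lg := by
    have a1 : W ^ 2 ≤ (8 * Lg ^ 2) ^ 2 := pow_le_pow_left₀ (by linarith) hWL 2
    have a2 : W ^ 2 * (100 * Lg) ≤ (8 * Lg ^ 2) ^ 2 * (100 * Lg) := mul_le_mul_of_nonneg_right a1 (by positivity)
    have a3 : W * Lg ≤ (8 * Lg ^ 2) * Lg := mul_le_mul_of_nonneg_right hWL hL0.le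
    have a4 : Lg ^ 3 * 4 ≤ Lg ^ 5 := by
      have : (4 : ℝ) ≤ Lg ^ 2 := by nlinarith
      calc Lg ^ 3 * 4 ≤ Lg ^ 3 * Lg ^ 2 := mul_le_mul_of_nonneg_left this (by positivity)
        _ = Lg ^ 5 := by ring
    have a5 : Lg * 16 ≤ Lg ^ 5 := by
      have h2 : (4 : ℝ) ≤ Lg ^ 2 := by nlinarith
      have : (16 : ℝ) ≤ Lg ^ 4 := by nlinarith
      calc Lg * 16 ≤ Lg * Lg ^ 4 := mul_le_mul_of_nonneg_left this (by positivity)
        _ = Lg ^ 5 := by ring
    nlinarith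
  have e4 : 6500 * Lg ^ 5 ≤ τ * (N : ℝ) ^ (-(1 / 20) : ℝ) / (4 * N * (W ^ 5 * ((N : ℝ) ^ (1 / 20 : ℝ)) ^ 2)) := by
    have a0 : 0 < 4 * N * (W ^ 5 * ((N : ℝ) ^ (1 / 20 : ℝ)) ^ 2) := by positivity
    rw [le_div_iff₀ a0]
    have a1 : W ^ 5 ≤ (8 * Lg ^ 2) ^ 5 := pow_le_pow_left₀ (by linarith) hWL 5
    have a2 : ((N : ℝ) ^ (1 / 20 : ℝ)) ^ 2 = (N : ℝ) ^ (1 / 10 : ℝ) := by
      rw [← Real.rpow_natCast ((N : ℝ) ^ (1 / 20 : ℝ)) 2, ← Real.rpow_mul hNpos.le]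
      norm_num
    rw [a2]
    have a3 : 6500 * Lg ^ 5 * (4 * N * (W ^ 5 * (N : ℝ) ^ (1 / 10 : ℝ))) ≤
        6500 * Lg ^ 5 * (4 * N * ((8 * Lg ^ 2) ^ 5 * (N : ℝ) ^ (1 / 10 : ℝ))) := by
      apply mul_le_mul_of_nonneg_left _ (by positivity)
      apply mul_le_mul_of_nonneg_left _ (by positivity)
      exact mul_le_mul_of_nonneg_right a1 (by positivity)
    have a4 : 8 * N * Lg ^ 12 * (N : ℝ) ^ (21 / 40 : ℝ) * (N : ℝ) ^ (-(1 / 20) : ℝ) ≤
        τ * (N : ℝ) ^ (-(1 / 20) : ℝ) := by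
      apply mul_le_mul_of_nonneg_right _ (by positivity)
      refine le_trans ?_ hτ
      exact mul_le_mul_of_nonneg_left hθ1 (by positivity)
    have a5 : (N : ℝ) ^ (21 / 40 : ℝ) * (N : ℝ) ^ (-(1 / 20) : ℝ) = (N : ℝ) ^ (3 / 8 : ℝ) * (N : ℝ) ^ (1 / 10 : ℝ) := by
      rw [← Real.rpow_add hNpos, ← Real.rpow_add hNpos]
      norm_num
    have a6 : 8 * N * Lg ^ 12 * (N : ℝ) ^ (21 / 40 : ℝ) * (N : ℝ) ^ (-(1 / 20) : ℝ) =
        (8 * N * Lg ^ 12 * (N : ℝ) ^ (1 / 10 : ℝ)) * (N : ℝ) ^ (3 / 8 : ℝ) := by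
      rw [mul_assoc (8 * N * Lg ^ 12) _ _, a5]
      ring
    have a7 : 6500 * Lg ^ 5 * (4 * N * ((8 * Lg ^ 2) ^ 5 * (N : ℝ) ^ (1 / 10 : ℝ))) =
        (8 * N * Lg ^ 12 * (N : ℝ) ^ (1 / 10 : ℝ)) * (16384 * 6500 * Lg ^ 3) := by
      ring
    have a8 : 16384 * 6500 * Lg ^ 3 ≤ (N : ℝ) ^ (3 / 8 : ℝ) := by
      linarith [f2]
    have a9 := mul_le_mul_of_nonneg_left a8 (show 0 ≤ 8 * N * Lg ^ 12 * (N : ℝ) ^ (1 / 10 : ℝ) by positivity)
    rw [a6] at a4
    linarith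
  have e5 : Real.exp (W ^ 2 * Real.log (1 / (N : ℝ) ^ (-100 : ℝ)) + W * Real.log (2 * (N : ℝ) ^ (1 / 20 : ℝ)) -
      τ * (N : ℝ) ^ (-(1 / 20) : ℝ) / (4 * N * (W ^ 5 * ((N : ℝ) ^ (1 / 20 : ℝ)) ^ 2))) ≤ (N : ℝ) ^ (-10 : ℝ) := by
    have hexp : (N : ℝ) ^ (-10 : ℝ) = Real.exp (Lg * (-10)) := Real.rpow_def_of_pos hNpos _
    rw [hexp]
    apply Real.exp_le_exp.2
    rw [e1]
    have a1 : W * Real.log (2 * (N : ℝ) ^ (1 / 20 : ℝ)) ≤ W * Lg := mul_le_mul_of_nonneg_left e2 (by linarith)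
    linarith
  -- the tails
  have e6 : ∑ z ∈ Finset.Ico a (x0 - w), ∑ x ∈ Finset.Ico x0 b, RR r l z x ≤ 16 * Lg ^ 4 * (N : ℝ) ^ (-11 : ℝ) := by
    have a1 : ∑ z ∈ Finset.Ico a (x0 - w), ∑ x ∈ Finset.Ico x0 b, RR r l z x ≤
        ∑ z ∈ Finset.Ico a (x0 - w), ∑ x ∈ Finset.Ico x0 b, (N : ℝ) ^ (-11 : ℝ) := by
      apply Finset.sum_le_sum
      intro z hz
      apply Finset.sum_le_sum
      intro x hx
      rw [Finset.mem_Ico] at hz hx
      exact hGE.far z x (by omega) (by omega)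
    refine a1.trans ?_
    rw [Finset.sum_const, Finset.sum_const, Nat.card_Ico, Nat.card_Ico, nsmul_eq_mul, nsmul_eq_mul, ← mul_assoc]
    apply mul_le_mul_of_nonneg_right _ (by positivity)
    have a2 : ((x0 - w - a : ℕ) : ℝ) ≤ 4 * Lg ^ 2 := by
      have : x0 - w - a ≤ 4 * w := by omega
      have : ((x0 - w - a : ℕ) : ℝ) ≤ 4 * w := by exact_mod_cast this
      linarith
    have a3 : ((b - x0 : ℕ) : ℝ) ≤ 4 * Lg ^ 2 := by
      have : b - x0 ≤ 4 * w := by omega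
      have : ((b - x0 : ℕ) : ℝ) ≤ 4 * w := by exact_mod_cast this
      linarith
    calc ((x0 - w - a : ℕ) : ℝ) * ((b - x0 : ℕ) : ℝ) ≤ (4 * Lg ^ 2) * (4 * Lg ^ 2) :=
          mul_le_mul a2 a3 (by positivity) (by positivity)
      _ = 16 * Lg ^ 4 := by ring
  have e7 : ∑ z ∈ Finset.Ico a x0, ∑ x ∈ Finset.Ico (x0 + w) b, RR r l z x ≤ 16 * Lg ^ 4 * (N : ℝ) ^ (-11 : ℝ) := by
    have a1 : ∑ z ∈ Finset.Ico a x0, ∑ x ∈ Finset.Ico (x0 + w) b, RR r l z x ≤
        ∑ z ∈ Finset.Ico a x0, ∑ x ∈ Finset.Ico (x0 + w) b, (N : ℝ) ^ (-11 : ℝ) := by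
      apply Finset.sum_le_sum
      intro z hz
      apply Finset.sum_le_sum
      intro x hx
      rw [Finset.mem_Ico] at hz hx
      exact hGE.far z x (by omega) (by omega)
    refine a1.trans ?_
    rw [Finset.sum_const, Finset.sum_const, Nat.card_Ico, Nat.card_Ico, nsmul_eq_mul, nsmul_eq_mul, ← mul_assoc]
    apply mul_le_mul_of_nonneg_right _ (by positivity)
    have a2 : ((x0 - a : ℕ) : ℝ) ≤ 4 * Lg ^ 2 := by
      have : x0 - a ≤ 4 * w := by omega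
      have : ((x0 - a : ℕ) : ℝ) ≤ 4 * w := by exact_mod_cast this
      linarith
    have a3 : ((b - (x0 + w) : ℕ) : ℝ) ≤ 4 * Lg ^ 2 := by
      have : b - (x0 + w) ≤ 4 * w := by omega
      have : ((b - (x0 + w) : ℕ) : ℝ) ≤ 4 * w := by exact_mod_cast this
      linarith
    calc ((x0 - a : ℕ) : ℝ) * ((b - (x0 + w) : ℕ) : ℝ) ≤ (4 * Lg ^ 2) * (4 * Lg ^ 2) :=
          mul_le_mul a2 a3 (by positivity) (by positivity)
      _ = 16 * Lg ^ 4 := by ring
  have e8 : (N : ℝ) ^ (-10 : ℝ) = N * (N : ℝ) ^ (-11 : ℝ) := by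
    nth_rewrite 2 [← Real.rpow_one (N : ℝ)]
    rw [← Real.rpow_add hNpos]
    norm_num
  have e9 : (N : ℝ) ^ (-9 : ℝ) = N * (N : ℝ) ^ (-10 : ℝ) := by
    nth_rewrite 2 [← Real.rpow_one (N : ℝ)]
    rw [← Real.rpow_add hNpos]
    norm_num
  have e10 : Lg ^ 4 * (N : ℝ) ^ (-11 : ℝ) ≤ (N : ℝ) ^ (-10 : ℝ) := by
    rw [e8]
    exact mul_le_mul_of_nonneg_right f3.le (by positivity)
  have e11 : 33 * (N : ℝ) ^ (-10 : ℝ) ≤ (N : ℝ) ^ (-9 : ℝ) := by
    rw [e9]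
    exact mul_le_mul_of_nonneg_right hN' (by positivity)
  linarith

end Pool.Agent.Helper98.EX
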